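import Pool.Agent.U788.Seg.Main

/-!
# Segment drawing with obstacles, embedding not fixed

The problem (given a planar graph, a line segment for every vertex and a list of obstacles, is there
a planar straight-line drawing with every vertex on its segment and no edge meeting an obstacle,
no embedding being prescribed) is `∃ℝ`-hard: every language in `∃ℝ` has a polynomial-time many-one
reduction to it.  The instances produced are connected planar graphs, they have no obstacles, all
segments have two different end points, and they can be taken all open (`cl = false`), and all
closed (`cl = true`).
-/

namespace Pool.Agent.Results.MP_431574_lc.EmbeddingNotFixed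

open Pool.Agent.NPC Pool.Agent.U788.SegW
open Pool.Agent.K4H90.SegDraw (ERHardOn)

/-- **Segment drawing with obstacles, embedding not fixed, is `∃ℝ`-hard**, already for connected
planar graphs without obstacles, all segments (with two different end points each) being open
(`cl = false`), and also all segments being closed (`cl = true`).  In particular the language of the
(encodings of) instances that consist of a planar graph with a suitable drawing is `∃ℝ`-hard. -/
theorem result :
    (∀ cl : Bool, ERHardOn
      (fun I : Inst => I.Valid ∧ I.Planar ∧ I.Connected ∧ I.obstacles = [] ∧
        ∀ e ∈ I.verts, e.2.1.closed = cl)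
      Inst.Solvable) ∧
    ER.ERHard (lang fun I : Inst => (I.Valid ∧ I.Planar) ∧ I.Solvable) := by
  refine ⟨hard, ?_⟩
  have h : ERHardOn (fun I : Inst => I.Valid ∧ I.Planar) Inst.Solvable := by
    intro L hL
    obtain ⟨f, hf, hp, h⟩ := hard true L hL
    exact ⟨f, hf, fun x => ⟨(hp x).1, (hp x).2.1⟩, h⟩
  exact h.toERHard

end Pool.Agent.Results.MP_431574_lc.EmbeddingNotFixed
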